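import Pool.Agent.KQS.Fin

set_option autoImplicit false

/-!
# Mean `p`-valent functions: exact order of `A_n^{(p)}`, and single functions stay far below it

The definitions `nval`, `MeanValent`, `coef`, `mu`, `S`, `A` are in `Pool/Agent/MPV/Defs.lean`.
-/

open Filter

namespace Pool.Agent.Kept.MP_a1ed50_an.BeyondSingleFunctions

/-- There are `c, C > 0` such that (1) for all `1/4 ≤ p < 1` and `n ≥ 2`, with
`s = p - 1/4 + 1/log n`, `c s^(-1/2) n^(2p-1) ≤ A_n^{(p)} ≤ C s^(-1/2) n^(2p-1)`; (2) for all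
`1/4 < p < 1` and every `f` in `S(p)`, `|a_n| ≤ C n^(2p-1)` for all large `n`. -/
theorem result : ∃ c C : ℝ, 0 < c ∧ 0 < C ∧
    (∀ p : ℝ, 1 / 4 ≤ p → p < 1 → ∀ n : ℕ, 2 ≤ n →
      ENNReal.ofReal (c / Real.sqrt (p - 1 / 4 + 1 / Real.log n) * (n : ℝ) ^ (2 * p - 1)) ≤
        MPV.A p n ∧
      MPV.A p n ≤
        ENNReal.ofReal (C / Real.sqrt (p - 1 / 4 + 1 / Real.log n) * (n : ℝ) ^ (2 * p - 1))) ∧
    ∀ p : ℝ, 1 / 4 < p → p < 1 → ∀ f ∈ MPV.S p,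
      ∀ᶠ n : ℕ in atTop, ‖MPV.coef f n‖ ≤ C * (n : ℝ) ^ (2 * p - 1) :=
  KQS.final

end Pool.Agent.Kept.MP_a1ed50_an.BeyondSingleFunctions
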