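import Pool.Agent.KQB.Fin

set_option autoImplicit false

/-!
# The maximal coefficients of mean `p`-valent functions: `K_p` tends to infinity as `p` decreases to `1/4`

The definitions `nval`, `MeanValent`, `coef`, `mu`, `S`, `A` are in `Pool/Agent/MPV/Defs.lean`.
-/

open Filter Topology

namespace Pool.Agent.Kept.MP_a1ed50_an.BlowUpAtQuarter

/-- There is `c > 0` such that for all `1/4 < p < 1` and all large `n`,
`A_n^{(p)} ≥ c (p - 1/4)^(-1/2) n^(2p-1)`. -/
theorem result : ∃ c : ℝ, 0 < c ∧ ∀ p : ℝ, 1 / 4 < p → p < 1 → ∀ᶠ n : ℕ in atTop,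
    ENNReal.ofReal (c / Real.sqrt (p - 1 / 4) * (n : ℝ) ^ (2 * p - 1)) ≤ MPV.A p n :=
  KQB.final

end Pool.Agent.Kept.MP_a1ed50_an.BlowUpAtQuarter
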