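import Pool.Agent.MPV.Main

set_option autoImplicit false

/-!
# The maximal coefficients of mean `p`-valent functions: the limit exists for `1/2 < p < 1`

The definitions `nval`, `MeanValent`, `coef`, `mu`, `S`, `A` are in `Pool/Agent/MPV/Defs.lean`.
-/

open Filter Topology

namespace Pool.Agent.Results.MP_a1ed50_an.LimitExists

/-- For every `1/2 < p < 1` the limit of `A_n^{(p)} n^(1-2p)` exists and is a finite positive
number. -/
theorem result (p : ℝ) (hp : 1 / 2 < p) (hp1 : p < 1) :
    ∃ K : ℝ, 0 < K ∧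
      Tendsto (fun n : ℕ => MPV.A p n * ENNReal.ofReal ((n : ℝ) ^ (1 - 2 * p))) atTop
        (𝓝 (ENNReal.ofReal K)) := by
  obtain ⟨K, hK, h⟩ := MPV.limit_exists hp hp1
  exact ⟨K, by linarith, h⟩

end Pool.Agent.Results.MP_a1ed50_an.LimitExists
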