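import Pool.Agent.KQB.Fin
import Pool.Agent.KQU.Fin

set_option autoImplicit false

/-!
# The maximal coefficients of mean `p`-valent functions: the exact order of `K_p` at `p = 1/4`

The definitions `nval`, `MeanValent`, `coef`, `mu`, `S`, `A` are in `Pool/Agent/MPV/Defs.lean`.
-/

open Filter Topology

namespace Pool.Agent.Kept.MP_a1ed50_an.OrderAtQuarter

/-- `K_p` is of exact order `(p - 1/4)^(-1/2)` on `1/4 < p < 1`: there are `c, C > 0` such that for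
all `1/4 < p < 1`, `A_n^{(p)} ≤ C (p - 1/4)^(-1/2) n^(2p-1)` for all `n ≥ 1`, and
`A_n^{(p)} ≥ c (p - 1/4)^(-1/2) n^(2p-1)` for all large `n`. -/
theorem result : ∃ c C : ℝ, 0 < c ∧ 0 < C ∧ ∀ p : ℝ, 1 / 4 < p → p < 1 →
    (∀ n : ℕ, 1 ≤ n →
      MPV.A p n ≤ ENNReal.ofReal (C / Real.sqrt (p - 1 / 4) * (n : ℝ) ^ (2 * p - 1))) ∧
    ∀ᶠ n : ℕ in atTop,
      ENNReal.ofReal (c / Real.sqrt (p - 1 / 4) * (n : ℝ) ^ (2 * p - 1)) ≤ MPV.A p n := by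
  obtain ⟨c, hc, h1⟩ := KQB.final
  obtain ⟨C, hC, h2⟩ := KQU.upper_all
  exact ⟨c, C, hc, hC, fun p hp hp1 => ⟨h2 p hp hp1, h1 p hp hp1⟩⟩

end Pool.Agent.Kept.MP_a1ed50_an.OrderAtQuarter
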